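import Pool.Agent.Helper93.IA.StC

set_option autoImplicit false

namespace Pool.Agent.Helper67.IAC

open Finset
open Pool.Agent.Helper93.IA

theorem hPHL : StPHL := by
  intro α β _ _ t A QA J J1 J2 U1 U2 hQ hJ h1 h2 ht
  refine ⟨?_, ?_, ?_, ?_⟩
  · rw [Finset.eq_empty_iff_forall_notMem]
    intro e he
    rw [mem_oo, mem_sdiff] at he
    obtain ⟨⟨heA, heI⟩, hx, hy⟩ := he
    apply heI
    by_cases heJ : e ∈ J
    · exact mem_union_left _ heJ
    · refine mem_union_right _ (mem_union_left _ (mem_union_left _ ?_))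
      rw [mem_oo]
      refine ⟨?_, hx, hy⟩
      rw [mem_sdiff, mem_sdiff, mem_sdiff]
      refine ⟨⟨⟨heA, ?_⟩, ?_⟩, heJ⟩
      · intro h
        exact hx (mem_ins.mp h).2.1
      · intro h
        have := (mem_crs.mp (hQ h)).2
        exact this ⟨fun h => absurd h hx, fun h => absurd h hy⟩
  · rw [Finset.eq_empty_iff_forall_notMem]
    intro e he
    rw [mem_ins] at he
    obtain ⟨heI, hx, hy⟩ := he
    rw [mem_union, mem_union, mem_union] at heI
    rcases heI with h | ⟨h | h⟩ | h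
    · have h' := hJ h
      rw [mem_sdiff, mem_sdiff] at h'
      exact h'.1.2 (mem_ins.mpr ⟨h'.1.1, hx, hy⟩)
    · exact (mem_oo.mp h).2.1 hx
    · exact (mem_io.mp (h1 h)).2.2 hy
    · exact (mem_oi.mp (h2 h)).2.1 hx
  · intro e he
    rw [mem_sdiff] at he
    by_cases hi : e ∈ ins A U1 U2
    · exact Or.inl hi
    by_cases hq : e ∈ QA
    · exact Or.inr (Or.inl hq)
    refine Or.inr (Or.inr ?_)
    rw [mem_sdiff, mem_sdiff, mem_sdiff]
    exact ⟨⟨⟨he.1, hi⟩, hq⟩, fun h => he.2 (mem_union_left _ h)⟩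
  · intro a ha
    have key : d1 QA a ≤ d1 J2 a +
        d1 (oi (A \ (J ∪ (oo (((A \ ins A U1 U2) \ QA) \ J) U1 U2 ∪ J1 ∪ J2))) U1 U2) a := by
      refine le_trans ?_ (d1_union_le _ _ a)
      apply Finset.card_le_card
      intro e he
      have he' := mem_filter.mp he
      obtain ⟨heQ, hea⟩ := he'
      refine mem_filter.mpr ⟨?_, hea⟩
      have hx : e.1 ∉ U1 := by rw [hea]; exact ha
      have hcrs := mem_crs.mp (hQ heQ)
      have hy : e.2 ∈ U2 := by
        by_contra hy
        exact hcrs.2 ⟨fun h => absurd h hx, fun h => absurd h hy⟩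
      by_cases he2 : e ∈ J2
      · exact mem_union_left _ he2
      · refine mem_union_right _ ?_
        rw [mem_oi, mem_sdiff, mem_union, mem_union, mem_union]
        refine ⟨⟨hcrs.1, ?_⟩, hx, hy⟩
        rintro (h | ⟨h | h⟩ | h)
        · have h' := hJ h
          rw [mem_sdiff] at h'
          exact h'.2 heQ
        · exact (mem_oo.mp h).2.2 hy
        · exact hx (mem_io.mp (h1 h)).2.1
        · exact he2 h
    have key' : (d1 QA a : ℝ) ≤ d1 J2 a +
        d1 (oi (A \ (J ∪ (oo (((A \ ins A U1 U2) \ QA) \ J) U1 U2 ∪ J1 ∪ J2))) U1 U2) a := by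
      exact_mod_cast key
    have := ht a
    linarith

end Pool.Agent.Helper67.IAC
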